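import Pool.Agent.QUD.StmtsR

/-!
# Squad QUD, row ASM: angle sum and area of a convex quadrilateral (helper46)
-/

set_option autoImplicit false

namespace Pool.Agent.QUD.H46

open MeasureTheory Complex Pool.Agent.H16Iso
open Pool.Agent.H1Gen (det CCW poly)
open Pool.Agent.QUD

theorem key (v : Fin 4 → ℂ) (a b c : ℂ) (p q t : ℝ)
    (h1 : sp (b - a) (c - a) = p * q * Real.cos t)
    (h2 : det (b - a) (c - a) = p * q * Real.sin t) :
    (starRingEnd ℂ) (b - a) * (c - a) = ((p * q : ℝ) : ℂ) * Complex.exp ((t : ℂ) * I) := by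
  apply Complex.ext
  · rw [Complex.re_ofReal_mul, Complex.exp_ofReal_mul_I_re, ← h1]
    simp [sp, Complex.mul_re]
    ring
  · rw [Complex.im_ofReal_mul, Complex.exp_ofReal_mul_I_im, ← h2]
    simp [det, Complex.mul_im]
    ring

theorem cm (z : ℂ) : (starRingEnd ℂ) z * z = ((‖z‖ ^ 2 : ℝ) : ℂ) := by
  rw [← Complex.normSq_eq_conj_mul_self, Complex.normSq_eq_norm_sq]

theorem asm (h1 : AngStmt) : AsmStmt := by
  intro v hv
  obtain ⟨a0, b0, e0, s0, d0⟩ := h1 v hv 0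
  obtain ⟨a1, b1, e1, s1, d1⟩ := h1 v hv 1
  obtain ⟨a2, b2, e2, s2, d2⟩ := h1 v hv 2
  obtain ⟨a3, b3, e3, s3, d3⟩ := h1 v hv 3
  have f1 : (0 : Fin 4) + 1 = 1 := rfl
  have f2 : (1 : Fin 4) + 1 = 2 := rfl
  have f3 : (2 : Fin 4) + 1 = 3 := rfl
  have f4 : (3 : Fin 4) + 1 = 0 := rfl
  have g1 : (0 : Fin 4) + 3 = 3 := rfl
  have g2 : (1 : Fin 4) + 3 = 0 := rfl
  have g3 : (2 : Fin 4) + 3 = 1 := rfl
  have g4 : (3 : Fin 4) + 3 = 2 := rfl
  rw [f1, g1] at s0 d0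
  rw [f2, g2] at s1 d1
  rw [f3, g3] at s2 d2
  rw [f4, g4] at s3 d3
  constructor
  · have k0 := key v _ _ _ _ _ _ s0 d0
    have k1 := key v _ _ _ _ _ _ s1 d1
    have k2 := key v _ _ _ _ _ _ s2 d2
    have k3 := key v _ _ _ _ _ _ s3 d3
    have c0 := cm (v 1 - v 0)
    have c1 := cm (v 2 - v 1)
    have c2 := cm (v 3 - v 2)
    have c3 := cm (v 0 - v 3)
    have n0 : en v 0 = ‖v 1 - v 0‖ := rfl
    have n1 : en v 1 = ‖v 2 - v 1‖ := rfl
    have n2 : en v 2 = ‖v 3 - v 2‖ := rfl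
    have n3 : en v 3 = ‖v 0 - v 3‖ := rfl
    rw [← n0] at c0
    rw [← n1] at c1
    rw [← n2] at c2
    rw [← n3] at c3
    have hP : ((en v 0 ^ 2 : ℝ) : ℂ) * ((en v 1 ^ 2 : ℝ) : ℂ) * ((en v 2 ^ 2 : ℝ) : ℂ) *
        ((en v 3 ^ 2 : ℝ) : ℂ) =
        (((en v 0 * en v 3 : ℝ) : ℂ) * Complex.exp ((an v 0 : ℂ) * I)) *
        (((en v 1 * en v 0 : ℝ) : ℂ) * Complex.exp ((an v 1 : ℂ) * I)) *
        (((en v 2 * en v 1 : ℝ) : ℂ) * Complex.exp ((an v 2 : ℂ) * I)) *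
        (((en v 3 * en v 2 : ℝ) : ℂ) * Complex.exp ((an v 3 : ℂ) * I)) := by
      rw [← k0, ← k1, ← k2, ← k3, ← c0, ← c1, ← c2, ← c3]
      ring
    have hE : Complex.exp (((an v 0 + an v 1 + an v 2 + an v 3 : ℝ) : ℂ) * I) = 1 := by
      have hne : ((en v 0 ^ 2 * en v 1 ^ 2 * en v 2 ^ 2 * en v 3 ^ 2 : ℝ) : ℂ) ≠ 0 := by
        rw [Complex.ofReal_ne_zero]
        positivity
      apply mul_left_cancel₀ hne
      rw [mul_one]
      have : (((an v 0 + an v 1 + an v 2 + an v 3 : ℝ) : ℂ) * I) =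
          (an v 0 : ℂ) * I + (an v 1 : ℂ) * I + (an v 2 : ℂ) * I + (an v 3 : ℂ) * I := by
        push_cast
        ring
      rw [this, Complex.exp_add, Complex.exp_add, Complex.exp_add]
      push_cast at hP ⊢
      linear_combination -hP
    rw [Complex.exp_eq_one_iff] at hE
    obtain ⟨n, hn⟩ := hE
    have hr : an v 0 + an v 1 + an v 2 + an v 3 = n * (2 * Real.pi) := by
      have h2 := congrArg Complex.im hn
      simpa using h2
    have hpi := Real.pi_pos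
    have hn0 : (0 : ℝ) < n := by
      by_contra hc
      push Not at hc
      nlinarith
    have hn2 : (n : ℝ) < 2 := by
      by_contra hc
      push Not at hc
      nlinarith
    have hn1 : n = 1 := by
      have i0 : (0 : ℤ) < n := by exact_mod_cast hn0
      have i2 : n < (2 : ℤ) := by exact_mod_cast hn2
      omega
    rw [hr, hn1]
    simp
  · unfold ar
    rw [show en v 1 * en v 2 * Real.sin (an v 2) = en v 2 * en v 1 * Real.sin (an v 2) by ring,
      ← d0, ← d2]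
    simp only [det, Complex.sub_re, Complex.sub_im]
    ring

end Pool.Agent.QUD.H46
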